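import Pool.Agent.Q143.BT.Main
import Mathlib.RingTheory.Valuation.ExtendToLocalization

/-!
# Domains with a degree function, polynomial rings
-/

set_option autoImplicit false
set_option linter.unusedSectionVars false
set_option linter.style.haveILetI false

namespace Pool.Agent.Q143.BT

open Pool.Agent.Q143.JN WithZero Pool.Agent.Y462.SS Pool.Agent.Q152.WP Pool.Agent.Q143.TR

variable {A B : Type} [CommRing A] [IsDomain A] [CommRing B]

/-- a degree function on a domain -/
structure DegFun (deg : A → ℕ) : Prop where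
  mul : ∀ a b, a ≠ 0 → b ≠ 0 → deg (a * b) = deg a + deg b
  add : ∀ a b, a ≠ 0 → b ≠ 0 → a + b ≠ 0 → deg (a + b) ≤ max (deg a) (deg b)

open Classical in
/-- the valuation of a degree function -/
noncomputable def dv {deg : A → ℕ} (h : DegFun deg) : Valuation A Z0 where
  toFun a := if a = 0 then 0 else exp (deg a : ℤ)
  map_zero' := if_pos rfl
  map_one' := by
    have h1 := h.mul 1 1 one_ne_zero one_ne_zero
    rw [mul_one] at h1
    have h2 : deg 1 = 0 := by omega
    rw [if_neg one_ne_zero, h2]
    simp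
  map_mul' a b := by
    by_cases ha : a = 0
    · rw [ha, zero_mul, if_pos rfl, zero_mul]
    · by_cases hb : b = 0
      · rw [hb, mul_zero, if_pos rfl, mul_zero]
      · rw [if_neg ha, if_neg hb, if_neg (mul_ne_zero ha hb), h.mul a b ha hb, Nat.cast_add,
          exp_add]
  map_add_le_max' a b := by
    by_cases ha : a = 0
    · rw [ha, zero_add, if_pos rfl]
      exact le_max_right _ _
    · by_cases hb : b = 0
      · rw [hb, add_zero, if_pos rfl]
        exact le_max_left _ _
      · by_cases hab : a + b = 0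
        · rw [if_pos hab]
          exact zero_le
        · rw [if_neg ha, if_neg hb, if_neg hab]
          rcases le_max_iff.1 (h.add a b ha hb hab) with h1 | h1
          · exact le_max_of_le_left (exp_le.2 (by exact_mod_cast h1))
          · exact le_max_of_le_right (exp_le.2 (by exact_mod_cast h1))

theorem dv_apply {deg : A → ℕ} (h : DegFun deg) {a : A} (ha : a ≠ 0) :
    dv h a = exp (deg a : ℤ) := if_neg ha

theorem dv_supp {deg : A → ℕ} (h : DegFun deg) : nonZeroDivisors A ≤ (dv h).supp.primeCompl := by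
  intro a ha
  have ha' := nonZeroDivisors.ne_zero ha
  intro h1
  have h2 : dv h a = 0 := h1
  rw [dv_apply h ha'] at h2
  exact exp_ne_zero h2

/-- the theorem for a ring homomorphism -/
theorem deg_mem {C : ∀ (G : Type) [Group G], Prop} (hC : Closed C) (hE : ExtClosed C)
    (hS : ∀ (G : Type) [Group G], Group.IsSolvable G → C G) {deg : A → ℕ} (h : DegFun deg)
    (ε : A →+* B) (hε : ∀ a, ε a = 0 → a ≠ 0 → 0 < deg a) (Γ : Subgroup (M2 A))
    (hQ : C (Γ.map (mp ε))) : C Γ := by
  let F := FractionRing A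
  let v : Valuation F Z0 := (dv h).extendToLocalization (dv_supp h) F
  have hv : ∀ a : A, v (algebraMap A F a) = dv h a :=
    fun a => (dv h).extendToLocalization_apply_map_apply (dv_supp h) F a
  refine place_mem (F := F) (ψ := algebraMap A F) (IsFractionRing.injective A F) (v := v)
    (m := RingHom.ker ε) (fun a ha h0 => ?_) Γ hC hE hS ?_
  · rw [hv, dv_apply h h0, ← exp_zero, exp_lt]
    exact_mod_cast hε a ha h0
  · have h1 : ∀ g : Γ.map (mp (Ideal.Quotient.mk (RingHom.ker ε))),
        mp (RingHom.kerLift ε) g.1 ∈ Γ.map (mp ε) := by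
      rintro ⟨_, γ, hγ, rfl⟩
      refine ⟨γ, hγ, ?_⟩
      apply Units.ext
      ext i j
      rw [mp_apply, mp_apply, mp_apply]
      exact (RingHom.kerLift_mk ε _).symm
    refine hC.of_injective _ _ (((mp (RingHom.kerLift ε)).comp (Subgroup.subtype _)).codRestrict
      (Γ.map (mp ε)) h1) ?_ hQ
    intro a b hab
    have h2 : mp (RingHom.kerLift ε) a.1 = mp (RingHom.kerLift ε) b.1 := congrArg Subtype.val hab
    apply Subtype.ext
    apply Units.ext
    ext i j
    apply RingHom.kerLift_injective ε
    rw [← mp_apply, ← mp_apply, h2]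

/-- the total degree -/
theorem degFun_mv (σ R : Type) [CommRing R] [IsDomain R] :
    DegFun (MvPolynomial.totalDegree : MvPolynomial σ R → ℕ) where
  mul a b ha hb := MvPolynomial.totalDegree_mul_of_isDomain ha hb
  add _ _ _ _ _ := MvPolynomial.totalDegree_add _ _

/-- the theorem for subgroups of the general linear group -/
theorem gl_mem {C : ∀ (G : Type) [Group G], Prop} (hC : Closed C) (hE : ExtClosed C)
    (hS : ∀ (G : Type) [Group G], Group.IsSolvable G → C G) {deg : A → ℕ} (h : DegFun deg)
    (ε : A →+* B) (hε : ∀ a, ε a = 0 → a ≠ 0 → 0 < deg a)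
    (Γ : Subgroup (Matrix.GeneralLinearGroup (Fin 2) A))
    (hQ : C (Γ.map (Matrix.GeneralLinearGroup.map ε))) : C Γ :=
  deg_mem hC hE hS h ε hε Γ hQ

/-- the whole group -/
theorem gl_whole {C : ∀ (G : Type) [Group G], Prop} (hC : Closed C) (hE : ExtClosed C)
    (hS : ∀ (G : Type) [Group G], Group.IsSolvable G → C G) {deg : A → ℕ} (h : DegFun deg)
    (ε : A →+* B) (hε : ∀ a, ε a = 0 → a ≠ 0 → 0 < deg a)
    (hB : C (Matrix.GeneralLinearGroup (Fin 2) B)) : C (Matrix.GeneralLinearGroup (Fin 2) A) := by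
  have h1 : C ((⊤ : Subgroup (Matrix.GeneralLinearGroup (Fin 2) A)).map
    (Matrix.GeneralLinearGroup.map ε)) := of_sub hC _ hB
  have h2 : C (⊤ : Subgroup (Matrix.GeneralLinearGroup (Fin 2) A)) := gl_mem hC hE hS h ε hε ⊤ h1
  exact hC.of_injective (Matrix.GeneralLinearGroup (Fin 2) A)
    (⊤ : Subgroup (Matrix.GeneralLinearGroup (Fin 2) A))
    (Subgroup.topEquiv (G := Matrix.GeneralLinearGroup (Fin 2) A)).symm.toMonoidHom
    (Subgroup.topEquiv (G := Matrix.GeneralLinearGroup (Fin 2) A)).symm.injective h2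

theorem mv_pos (σ R : Type) [CommRing R] [IsDomain R] (x : σ → R) (a : MvPolynomial σ R)
    (ha : MvPolynomial.eval x a = 0) (h0 : a ≠ 0) : 0 < a.totalDegree := by
  rw [Nat.pos_iff_ne_zero]
  intro h1
  rw [MvPolynomial.totalDegree_eq_zero_iff_eq_C] at h1
  rw [h1, MvPolynomial.eval_C] at ha
  rw [ha, map_zero] at h1
  exact h0 h1

theorem gl_map_inj {R S : Type} [CommRing R] [CommRing S] (φ : R →+* S)
    (hφ : Function.Injective φ) :
    Function.Injective (Matrix.GeneralLinearGroup.map (n := Fin 2) φ) := by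
  intro a b hab
  apply Units.ext
  ext i j
  apply hφ
  exact congrArg (fun g : Matrix.GeneralLinearGroup (Fin 2) S => g.1 i j) hab

theorem mv_iff {C : ∀ (G : Type) [Group G], Prop} (hC : Closed C) (hE : ExtClosed C)
    (hS : ∀ (G : Type) [Group G], Group.IsSolvable G → C G) (σ R : Type) [CommRing R]
    [IsDomain R] : C (Matrix.GeneralLinearGroup (Fin 2) (MvPolynomial σ R)) ↔
      C (Matrix.GeneralLinearGroup (Fin 2) R) := by
  constructor
  · intro h
    exact hC.of_injective (Matrix.GeneralLinearGroup (Fin 2) R)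
      (Matrix.GeneralLinearGroup (Fin 2) (MvPolynomial σ R))
      (Matrix.GeneralLinearGroup.map MvPolynomial.C)
      (gl_map_inj MvPolynomial.C (MvPolynomial.C_injective σ R)) h
  · intro h
    exact gl_whole hC hE hS (degFun_mv σ R)
      (MvPolynomial.eval (fun _ : σ => (0 : R))) (mv_pos σ R (fun _ : σ => (0 : R))) h

end Pool.Agent.Q143.BT
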