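import Pool.Agent.Q143.BT.Tree
import Pool.Agent.Q143.TR.Col

/-!
# The kernel of the reduction modulo an ideal without elements of nonpositive degree
-/

set_option autoImplicit false
set_option linter.unusedSectionVars false
set_option linter.style.haveILetI false

namespace Pool.Agent.Q143.BT

open Pool.Agent.Q143.JN WithZero Pool.Agent.Y462.SS Pool.Agent.Q152.WP Pool.Agent.Q143.TR

/-! ## algebra -/

section alg

variable {F : Type} [Field F]

theorem same_line {a b c d a' b' c' d' p q : F} (h1 : a + d = 0) (h2 : a * d - b * c = 0)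
    (h1' : a' + d' = 0) (h2' : a' * d' - b' * c' = 0)
    (h3 : a * a' + b * c' + (c * b' + d * d') = 0) (hne : ¬ (a = 0 ∧ b = 0 ∧ c = 0))
    (h4 : a * p + b * q = 0) (h5 : c * p + d * q = 0) : a' * p + b' * q = 0 ∧
      c' * p + d' * q = 0 := by
  obtain rfl : d = -a := by linear_combination h1
  obtain rfl : d' = -a' := by linear_combination h1'
  by_cases hp : p = 0
  · subst hp
    by_cases hq : q = 0
    · subst hq
      simp
    · have hb : b = 0 := by
        have h6 : b * q = 0 := by linear_combination h4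
        exact (mul_eq_zero.1 h6).resolve_right hq
      have ha : a = 0 := by
        have h6 : a * q = 0 := by linear_combination -h5
        exact (mul_eq_zero.1 h6).resolve_right hq
      have hc : c ≠ 0 := fun hc => hne ⟨ha, hb, hc⟩
      have hb' : b' = 0 := by
        have h6 : c * b' = 0 := by
          rw [ha, hb] at h3
          linear_combination h3
        exact (mul_eq_zero.1 h6).resolve_left hc
      have ha' : a' = 0 := by
        have h6 : a' * a' = 0 := by
          rw [hb'] at h2'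
          linear_combination -h2'
        exact mul_self_eq_zero.1 h6
      rw [ha', hb']
      simp
  · have hb : b ≠ 0 := by
      intro hb
      have ha : a = 0 := by
        have h6 : a * p = 0 := by
          rw [hb] at h4
          linear_combination h4
        exact (mul_eq_zero.1 h6).resolve_right hp
      have hc : c = 0 := by
        have h6 : c * p = 0 := by
          rw [ha] at h5
          linear_combination h5
        exact (mul_eq_zero.1 h6).resolve_right hp
      exact hne ⟨ha, hb, hc⟩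
    have hD : p * (c' * p + -a' * q) - q * (a' * p + b' * q) = 0 := by
      have h6 : b * (p * (c' * p + -a' * q) - q * (a' * p + b' * q)) = 0 := by
        have e1 : a * p = -(b * q) := by linear_combination h4
        have e2 : c * p = a * q := by linear_combination h5
        have e3 : c * p * p = -(b * q * q) := by
          rw [e2]
          calc a * q * p = a * p * q := by ring
            _ = _ := by rw [e1]; ring
        linear_combination p ^ 2 * h3 - b' * e3 - (2 * a' * p) * e1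
      exact (mul_eq_zero.1 h6).resolve_left hb
    have hP : a' * p + b' * q = 0 := by
      have h6 : (a' * p + b' * q) * (a' * p + b' * q) = 0 := by
        linear_combination (-p * p) * h2' + (-b') * hD
      exact mul_self_eq_zero.1 h6
    refine ⟨hP, ?_⟩
    rw [hP, mul_zero, sub_zero] at hD
    exact (mul_eq_zero.1 hD).resolve_left hp

/-- the stabilizer of a line is solvable -/
theorem line_sol {G : Type} [Group G] (j : G →* M2 F) (hj : Function.Injective j) (w : Fin 2 → F)
    (hw : w ≠ 0) (h : ∀ g, w 0 * act2 (j g) w 1 = w 1 * act2 (j g) w 0) : Group.IsSolvable G := by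
  classical
  have hd : IsDeg (RingHom.id F) (RingHom.id F) (fun _ : F => (0 : ℕ)) :=
    { aug := fun _ => rfl
      add := fun _ _ => le_max_left _ _
      const := fun _ _ => le_rfl
      mul := fun r a h1 h2 _ => absurd h1 h2 }
  haveI h1 : Group.IsSolvable (UT F) := ut_sol hd
  obtain ⟨g0, hg0⟩ : ∃ g : M2 F, act2 g ![1, 0] = w := by
    by_cases hw0 : w 0 = 0
    · have hw1 : w 1 ≠ 0 := by
        intro h2
        apply hw
        funext i
        fin_cases i
        · exact hw0
        · exact h2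
      refine ⟨⟨!![0, 1; w 1, 0], !![0, (w 1)⁻¹; 1, 0], ?_, ?_⟩, ?_⟩
      · rw [Matrix.mul_fin_two, Matrix.one_fin_two]
        simp [hw1]
      · rw [Matrix.mul_fin_two, Matrix.one_fin_two]
        simp [hw1]
      · funext i
        rw [act2_apply]
        fin_cases i
        · simp [hw0]
        · simp
    · refine ⟨⟨!![w 0, 0; w 1, 1], !![(w 0)⁻¹, 0; -(w 1 * (w 0)⁻¹), 1], ?_, ?_⟩, ?_⟩
      · rw [Matrix.mul_fin_two, Matrix.one_fin_two]
        simp [hw0]
      · rw [Matrix.mul_fin_two, Matrix.one_fin_two]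
        simp [hw0]
      · funext i
        rw [act2_apply]
        fin_cases i
        · simp
        · simp
  have hmem : ∀ g : G, g0⁻¹ * j g * g0 ∈ UT F := by
    intro g
    rw [ut_iff]
    have h2 : act2 (j g) w = (if w 0 = 0 then act2 (j g) w 1 / w 1 else
        act2 (j g) w 0 / w 0) • w := by
      have h3 := h g
      by_cases hw0 : w 0 = 0
      · have hw1 : w 1 ≠ 0 := by
          intro h2
          apply hw
          funext i
          fin_cases i
          · exact hw0
          · exact h2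
        rw [if_pos hw0]
        rw [hw0, zero_mul] at h3
        have h4 := (mul_eq_zero.1 h3.symm).resolve_left hw1
        funext i
        fin_cases i
        · change act2 (j g) w 0 = act2 (j g) w 1 / w 1 * w 0
          rw [h4, hw0, mul_zero]
        · change act2 (j g) w 1 = act2 (j g) w 1 / w 1 * w 1
          field_simp
      · rw [if_neg hw0]
        funext i
        fin_cases i
        · change act2 (j g) w 0 = act2 (j g) w 0 / w 0 * w 0
          field_simp
        · change act2 (j g) w 1 = act2 (j g) w 0 / w 0 * w 1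
          field_simp
          linear_combination h3
    have h5 : act2 (g0⁻¹ * j g * g0) ![1, 0] 1 = (g0⁻¹ * j g * g0).1 1 0 := by
      rw [act2_apply]
      simp
    rw [← h5, map_mul, map_mul]
    change act2 g0⁻¹ (act2 (j g) (act2 g0 ![1, 0])) 1 = 0
    have hlin : ∀ (g : M2 F) (c : F) (x : Fin 2 → F), act2 g (c • x) = c • act2 g x := by
      intro g c x
      funext i
      change _ = c * act2 g x i
      rw [act2_apply, act2_apply]
      change g.1 i 0 * (c * x 0) + g.1 i 1 * (c * x 1) = _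
      ring
    rw [hg0, h2, hlin, ← hg0]
    change _ * act2 g0⁻¹ (act2 g0 ![1, 0]) 1 = 0
    have h6 : act2 g0⁻¹ (act2 g0 ![1, 0]) = ![1, 0] := by
      change (act2 g0⁻¹ * act2 g0) ![1, 0] = _
      rw [← map_mul, inv_mul_cancel, map_one]
      rfl
    rw [h6]
    exact mul_zero _
  let Φ : G →* UT F :=
    { toFun := fun g => ⟨g0⁻¹ * j g * g0, hmem g⟩
      map_one' := Subtype.ext (by
        change g0⁻¹ * j 1 * g0 = 1
        rw [map_one]
        group)
      map_mul' := fun a b => Subtype.ext (by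
        change g0⁻¹ * j (a * b) * g0 = (g0⁻¹ * j a * g0) * (g0⁻¹ * j b * g0)
        rw [map_mul]
        group) }
  refine Group.isSolvable_of_isSolvable_injective (f := Φ) (fun a b hab => hj ?_)
  have h7 : g0⁻¹ * j a * g0 = g0⁻¹ * j b * g0 := congrArg Subtype.val hab
  exact mul_left_cancel (mul_right_cancel h7)

end alg

section ker

variable {A F : Type} [CommRing A] [Field F] {ψ : A →+* F} {v : Valuation F Z0} {m : Ideal A}

/-- congruent to the identity -/
def Cg (m : Ideal A) (κ : M2 A) : Prop :=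
  κ.1 0 0 - 1 ∈ m ∧ κ.1 0 1 ∈ m ∧ κ.1 1 0 ∈ m ∧ κ.1 1 1 - 1 ∈ m

theorem cg_iff (κ : M2 A) : mp (Ideal.Quotient.mk m) κ = 1 ↔ Cg m κ := by
  constructor
  · intro h
    have h1 : ∀ i j, Ideal.Quotient.mk m (κ.1 i j) = (1 : Matrix (Fin 2) (Fin 2) (A ⧸ m)) i j := by
      intro i j
      rw [← mp_apply, h]
      rfl
    have h00 := h1 0 0
    have h01 := h1 0 1
    have h10 := h1 1 0
    have h11 := h1 1 1
    rw [Matrix.one_apply_eq] at h00 h11
    rw [Matrix.one_apply_ne (by decide)] at h01 h10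
    refine ⟨?_, Ideal.Quotient.eq_zero_iff_mem.1 h01, Ideal.Quotient.eq_zero_iff_mem.1 h10, ?_⟩
    · rw [← Ideal.Quotient.eq_zero_iff_mem, map_sub, h00, map_one, sub_self]
    · rw [← Ideal.Quotient.eq_zero_iff_mem, map_sub, h11, map_one, sub_self]
  · rintro ⟨h00, h01, h10, h11⟩
    rw [← Ideal.Quotient.eq_zero_iff_mem] at h00 h01 h10 h11
    rw [map_sub, map_one, sub_eq_zero] at h00 h11
    apply Units.ext
    ext i j
    rw [mp_apply]
    fin_cases i <;> fin_cases j
    · exact h00
    · exact h01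
    · exact h10
    · exact h11

theorem det_cg {κ : M2 A} (h : Cg m κ) :
    κ.1 0 0 * κ.1 1 1 - κ.1 0 1 * κ.1 1 0 - 1 ∈ m := by
  obtain ⟨h00, h01, h10, h11⟩ := h
  have h1 : κ.1 0 0 * κ.1 1 1 - κ.1 0 1 * κ.1 1 0 - 1 =
      κ.1 1 1 * (κ.1 0 0 - 1) + (κ.1 1 1 - 1) - κ.1 0 1 * κ.1 1 0 := by ring
  rw [h1]
  exact m.sub_mem (m.add_mem (m.mul_mem_left _ h00) h11) (m.mul_mem_left _ h10)

variable (hm : ∀ a ∈ m, a ≠ 0 → 1 < v (ψ a))

include hm in
theorem one_le_of {a : A} (ha : a - 1 ∈ m) : 1 ≤ v (ψ a) := by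
  by_cases h0 : a - 1 = 0
  · rw [sub_eq_zero] at h0
    rw [h0, map_one, map_one]
  · have h1 := hm _ ha h0
    by_contra h2
    rw [not_le] at h2
    have h3 : ψ (a - 1) = ψ a - 1 := by rw [map_sub, map_one]
    rw [h3] at h1
    have h4 := v.map_sub (ψ a) 1
    rw [map_one] at h4
    exact absurd (h1.trans_le h4) (not_lt.2 (max_le h2.le le_rfl))

/-- the determinant -/
def dd (g : M2 F) : F := g.1 0 0 * g.1 1 1 - g.1 0 1 * g.1 1 0

theorem dd_det (g : M2 F) : dd g = g.1.det := (Matrix.det_fin_two _).symm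

theorem dd_inv (g : M2 F) : dd g * dd g⁻¹ = 1 := by
  rw [dd_det, dd_det, ← Matrix.det_mul, Units.mul_inv, Matrix.det_one]

theorem val_det {g : M2 F} {N : VV v} {c : Z0} (h : ∀ x, N.1 (act2 g x) = c * N.1 x) :
    v (dd g) ≤ c * c := by
  have h1 := nm_det v (ctr N) (rad N) (act2 g ![1, 0]) (act2 g ![ctr N, 1])
  rw [← N_eq, h, h] at h1
  rw [N_eq N, nm_e0, nm_a, mul_one] at h1
  have h2 : act2 g ![1, 0] 0 * act2 g ![ctr N, 1] 1 - act2 g ![1, 0] 1 * act2 g ![ctr N, 1] 0 =
      dd g := by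
    rw [act2_apply, act2_apply, act2_apply, act2_apply, dd]
    simp
    ring
  rw [h2] at h1
  have h3 : c * (c * rad N) = rad N * (c * c) := by
    rw [mul_comm (rad N), mul_assoc]
  rw [h3] at h1
  exact le_of_mul_le_mul_left h1 (zero_lt_iff.2 (rad_ne N))

theorem fix_scale {g : M2 F} {N : VV v} (h : g • N = N) :
    ∃ c : Z0, c ≠ 0 ∧ ∀ x, N.1 (act2 g x) = c * N.1 x := by
  refine ⟨(N.1 (act2 g⁻¹ ![1, 0]))⁻¹, inv_ne_zero (act_ne _ _), fun x => ?_⟩
  have h1 : (g • N).1 (act2 g x) = N.1 (act2 g x) := by rw [h]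
  rw [smul_apply] at h1
  have h2 : act2 g⁻¹ (act2 g x) = x := by
    change (act2 g⁻¹ * act2 g) x = _
    rw [← map_mul, inv_mul_cancel, map_one]
    rfl
  rw [h2] at h1
  rw [← h1, div_eq_inv_mul]

include hm in
theorem fix_iso {κ : M2 A} (hκ : Cg m κ) (hκ' : Cg m κ⁻¹) {N : VV v} (h : mp ψ κ • N = N)
    (x : Fin 2 → F) : N.1 (act2 (mp ψ κ) x) = N.1 x := by
  obtain ⟨c, hc, h1⟩ := fix_scale h
  have h2 := val_det h1
  have h3 : (1 : Z0) ≤ v (dd (mp ψ κ)) := by
    have h4 := one_le_of hm (det_cg hκ)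
    rwa [map_sub, map_mul, map_mul] at h4
  have h5 : (1 : Z0) ≤ v (dd (mp ψ κ)⁻¹) := by
    have h4 := one_le_of hm (det_cg hκ')
    rw [map_sub, map_mul, map_mul] at h4
    rw [← map_inv]
    exact h4
  have h6 : v (dd (mp ψ κ)) * v (dd (mp ψ κ)⁻¹) = 1 := by
    rw [← map_mul, dd_inv, map_one]
  have h7 : ∀ x, N.1 (act2 (mp ψ κ)⁻¹ x) = c⁻¹ * N.1 x := by
    intro x
    have h8 := h1 (act2 (mp ψ κ)⁻¹ x)
    have h9 : act2 (mp ψ κ) (act2 (mp ψ κ)⁻¹ x) = x := by
      change (act2 (mp ψ κ) * act2 (mp ψ κ)⁻¹) x = _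
      rw [← map_mul, mul_inv_cancel, map_one]
      rfl
    rw [h9] at h8
    rw [h8, ← mul_assoc, inv_mul_cancel₀ hc, one_mul]
  have h8 := val_det h7
  have hc1 : c = 1 := by
    obtain ⟨n, rfl⟩ := ex_exp hc
    have e1 : (1 : Z0) ≤ exp (n + n) := (h3.trans h2).trans (exp_add n n).ge
    have e2 : (1 : Z0) ≤ exp (-n + -n) := by
      refine (h5.trans h8).trans ?_
      rw [exp_add, exp_neg]
    rw [← exp_zero, exp_le] at e1 e2
    have : n = 0 := by omega
    rw [this, exp_zero]
  rw [h1, hc1, one_mul]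

/-- an element of the ideal with value at most one is zero -/
theorem zero_of (hm : ∀ a ∈ m, a ≠ 0 → 1 < v (ψ a)) {a : A} (ha : a ∈ m) (h : v (ψ a) ≤ 1) :
    a = 0 := by
  by_contra h0
  exact absurd (hm a ha h0) (not_lt.2 h)

include hm in
/-- the elements of the kernel that fix a vertex are unipotent -/
theorem nil_of {κ : M2 A} (hκ : Cg m κ) (hκ' : Cg m κ⁻¹) {N : VV v} (h : mp ψ κ • N = N) :
    (κ.1 0 0 - 1) + (κ.1 1 1 - 1) = 0 ∧
      (κ.1 0 0 - 1) * (κ.1 1 1 - 1) - κ.1 0 1 * κ.1 1 0 = 0 := by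
  have h1 := fix_iso hm hκ hκ' h
  have h2 : ∀ x : Fin 2 → F, N.1 (act2 (mp ψ κ) x - x) ≤ N.1 x := by
    intro x
    rw [sub_eq_add_neg]
    have h3 := nm_add v (ctr N) (rad N) (act2 (mp ψ κ) x) (-x)
    rw [← N_eq, h1] at h3
    have h4 := nm_smul v (ctr N) (rad N) (-1) x
    rw [← N_eq, neg_one_smul, Valuation.map_neg, map_one, one_mul] at h4
    rw [h4, max_self] at h3
    exact h3
  have he0 : N.1 ![1, 0] = 1 := by rw [N_eq N, nm_e0]
  have hea : N.1 ![ctr N, 1] = rad N := by
    conv_lhs => rw [N_eq N]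
    exact nm_a _ _ _
  have hr := zero_lt_iff.2 (rad_ne N)
  have hdet : ∀ x y : Fin 2 → F, rad N * v (x 0 * y 1 - x 1 * y 0) ≤ N.1 x * N.1 y := by
    intro x y
    have h3 := nm_det v (ctr N) (rad N) x y
    rwa [← N_eq] at h3
  obtain ⟨h00, h01, h10, h11⟩ := hκ
  constructor
  · refine zero_of hm (m.add_mem h00 h11) ?_
    have e1 := hdet (act2 (mp ψ κ) ![1, 0] - ![1, 0]) ![ctr N, 1]
    have e2 := hdet ![1, 0] (act2 (mp ψ κ) ![ctr N, 1] - ![ctr N, 1])
    have e3 := e1.trans (mul_le_mul' (h2 _) le_rfl)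
    have e4 := e2.trans (mul_le_mul' le_rfl (h2 _))
    rw [he0, hea, one_mul] at e3 e4
    have e5 := le_of_mul_le_mul_left (e3.trans (mul_one _).ge) hr
    have e6 := le_of_mul_le_mul_left (e4.trans (mul_one _).ge) hr
    have e7 : ψ ((κ.1 0 0 - 1) + (κ.1 1 1 - 1)) =
        ((act2 (mp ψ κ) ![1, 0] - ![1, 0] : Fin 2 → F) 0 * (![ctr N, 1] : Fin 2 → F) 1 -
          (act2 (mp ψ κ) ![1, 0] - ![1, 0] : Fin 2 → F) 1 * (![ctr N, 1] : Fin 2 → F) 0) +
        ((![1, 0] : Fin 2 → F) 0 * (act2 (mp ψ κ) ![ctr N, 1] - ![ctr N, 1] : Fin 2 → F) 1 -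
          (![1, 0] : Fin 2 → F) 1 * (act2 (mp ψ κ) ![ctr N, 1] - ![ctr N, 1] : Fin 2 → F) 0) := by
      simp only [Pi.sub_apply, act2_apply, mp_apply, map_add, map_sub, map_one]
      simp
      ring
    rw [e7]
    exact (v.map_add _ _).trans (max_le e5 e6)
  · refine zero_of hm (m.sub_mem (m.mul_mem_right _ h00) (m.mul_mem_right _ h01)) ?_
    have e1 := hdet (act2 (mp ψ κ) ![1, 0] - ![1, 0]) (act2 (mp ψ κ) ![ctr N, 1] - ![ctr N, 1])
    have e3 := e1.trans (mul_le_mul' (h2 _) (h2 _))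
    rw [he0, hea, one_mul] at e3
    have e5 := le_of_mul_le_mul_left (e3.trans (mul_one _).ge) hr
    have e7 : ψ ((κ.1 0 0 - 1) * (κ.1 1 1 - 1) - κ.1 0 1 * κ.1 1 0) =
        (act2 (mp ψ κ) ![1, 0] - ![1, 0] : Fin 2 → F) 0 *
          (act2 (mp ψ κ) ![ctr N, 1] - ![ctr N, 1] : Fin 2 → F) 1 -
        (act2 (mp ψ κ) ![1, 0] - ![1, 0] : Fin 2 → F) 1 *
          (act2 (mp ψ κ) ![ctr N, 1] - ![ctr N, 1] : Fin 2 → F) 0 := by
      simp only [Pi.sub_apply, act2_apply, mp_apply, map_mul, map_sub, map_one]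
      simp
      ring
    rw [e7]
    exact e5

end ker

end Pool.Agent.Q143.BT
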