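import Pool.Agent.Q143.BT.Ker

/-!
# Two by two matrices over rings with one place at infinity
-/

set_option autoImplicit false
set_option linter.unusedSectionVars false
set_option linter.style.haveILetI false

namespace Pool.Agent.Q143.BT

open Pool.Agent.Q143.JN WithZero Pool.Agent.Y462.SS Pool.Agent.Q152.WP Pool.Agent.Q143.TR

variable {A F : Type} [CommRing A] [Field F] {ψ : A →+* F} (hψ : Function.Injective ψ)
  {v : Valuation F Z0} {m : Ideal A} (hm : ∀ a ∈ m, a ≠ 0 → 1 < v (ψ a))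

/-- the elements congruent to the identity form a subgroup -/
theorem cg_sub : ∃ H : Subgroup (M2 A), H.Normal ∧ ∀ κ, κ ∈ H ↔ Cg m κ :=
  ⟨(mp (Ideal.Quotient.mk m)).ker, inferInstance, fun κ => cg_iff κ⟩

theorem cg_mul {κ κ' : M2 A} (h : Cg m κ) (h' : Cg m κ') : Cg m (κ * κ') := by
  obtain ⟨H, _, hH⟩ := cg_sub (m := m)
  exact (hH _).1 (mul_mem ((hH _).2 h) ((hH _).2 h'))

theorem cg_inv {κ : M2 A} (h : Cg m κ) : Cg m κ⁻¹ := by
  obtain ⟨H, _, hH⟩ := cg_sub (m := m)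
  exact (hH _).1 (inv_mem ((hH _).2 h))

theorem cg_conj {κ : M2 A} (h : Cg m κ) (γ : M2 A) : Cg m (γ * κ * γ⁻¹) := by
  obtain ⟨H, hn, hH⟩ := cg_sub (m := m)
  exact (hH _).1 (hn.conj_mem _ ((hH _).2 h) γ)

theorem mp_inj (hψ : Function.Injective ψ) : Function.Injective (mp ψ) := by
  intro a b hab
  apply Units.ext
  ext i j
  apply hψ
  rw [← mp_apply, ← mp_apply, hab]

/-- the fixed vectors -/
def Ln (ψ : A →+* F) (κ : M2 A) : Set (Fin 2 → F) := {w | act2 (mp ψ κ) w = w}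

theorem mem_Ln {κ : M2 A} {w : Fin 2 → F} : w ∈ Ln ψ κ ↔
    ψ (κ.1 0 0 - 1) * w 0 + ψ (κ.1 0 1) * w 1 = 0 ∧
      ψ (κ.1 1 0) * w 0 + ψ (κ.1 1 1 - 1) * w 1 = 0 := by
  change act2 (mp ψ κ) w = w ↔ _
  constructor
  · intro h
    have h0 := congrFun h 0
    have h1 := congrFun h 1
    rw [act2_apply, mp_apply, mp_apply] at h0 h1
    rw [map_sub, map_sub, map_one]
    exact ⟨by linear_combination h0, by linear_combination h1⟩
  · rintro ⟨h0, h1⟩
    rw [map_sub, map_one] at h0 h1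
    funext i
    rw [act2_apply, mp_apply, mp_apply]
    fin_cases i
    · change ψ (κ.1 0 0) * w 0 + ψ (κ.1 0 1) * w 1 = w 0
      linear_combination h0
    · change ψ (κ.1 1 0) * w 0 + ψ (κ.1 1 1) * w 1 = w 1
      linear_combination h1

include hψ in
theorem ne_of_ne {κ : M2 A} (h : (κ.1 0 0 - 1) + (κ.1 1 1 - 1) = 0) (h1 : κ ≠ 1) :
    ¬ (ψ (κ.1 0 0 - 1) = 0 ∧ ψ (κ.1 0 1) = 0 ∧ ψ (κ.1 1 0) = 0) := by
  rintro ⟨h00, h01, h10⟩
  rw [map_eq_zero_iff ψ hψ] at h00 h01 h10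
  apply h1
  rw [h00, zero_add] at h
  rw [sub_eq_zero] at h00 h
  apply Units.ext
  ext i j
  fin_cases i <;> fin_cases j
  · exact h00
  · exact h01
  · exact h10
  · exact h

include hψ hm in
/-- two nontrivial elements of the kernel which fix the same vertex have the same fixed vectors -/
theorem Ln_le {κ κ' : M2 A} (h : Cg m κ) (h' : Cg m κ') {N : VV v} (hN : mp ψ κ • N = N)
    (hN' : mp ψ κ' • N = N) (h1 : κ ≠ 1) : Ln ψ κ ≤ Ln ψ κ' := by
  obtain ⟨a1, a2⟩ := nil_of hm h (cg_inv h) hN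
  obtain ⟨b1, b2⟩ := nil_of hm h' (cg_inv h') hN'
  obtain ⟨c1, -⟩ := nil_of hm (cg_mul h h') (cg_inv (cg_mul h h'))
    (by rw [map_mul, mul_smul, hN', hN] : mp ψ (κ * κ') • N = N)
  have hne := ne_of_ne (ψ := ψ) hψ a1 h1
  intro w hw
  rw [mem_Ln] at hw ⊢
  rw [Units.val_mul, Matrix.mul_apply, Matrix.mul_apply, Fin.sum_univ_two, Fin.sum_univ_two] at c1
  have e1 := congrArg ψ a1
  have e2 := congrArg ψ a2
  have e3 := congrArg ψ b1
  have e4 := congrArg ψ b2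
  have e5 : ψ (κ.1 0 0 - 1) * ψ (κ'.1 0 0 - 1) + ψ (κ.1 0 1) * ψ (κ'.1 1 0) +
      (ψ (κ.1 1 0) * ψ (κ'.1 0 1) + ψ (κ.1 1 1 - 1) * ψ (κ'.1 1 1 - 1)) = 0 := by
    rw [← map_mul, ← map_mul, ← map_mul, ← map_mul, ← map_add, ← map_add, ← map_add,
      map_eq_zero_iff ψ hψ]
    linear_combination c1 - a1 - b1
  rw [map_add, map_zero] at e1 e3
  rw [map_sub, map_mul, map_mul, map_zero] at e2 e4
  exact same_line e1 e2 e3 e4 e5 hne hw.1 hw.2

include hψ hm in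
theorem Ln_eq {κ κ' : M2 A} (h : Cg m κ) (h' : Cg m κ') {N : VV v} (hN : mp ψ κ • N = N)
    (hN' : mp ψ κ' • N = N) (h1 : κ ≠ 1) (h1' : κ' ≠ 1) : Ln ψ κ = Ln ψ κ' :=
  le_antisymm (Ln_le hψ hm h h' hN hN' h1) (Ln_le hψ hm h' h hN' hN h1')

theorem Ln_conj (κ γ : M2 A) (w : Fin 2 → F) :
    w ∈ Ln ψ κ ↔ act2 (mp ψ γ) w ∈ Ln ψ (γ * κ * γ⁻¹) := by
  change act2 (mp ψ κ) w = w ↔ act2 (mp ψ (γ * κ * γ⁻¹)) (act2 (mp ψ γ) w) = act2 (mp ψ γ) w
  have h1 : act2 (mp ψ (γ * κ * γ⁻¹)) (act2 (mp ψ γ) w) = act2 (mp ψ γ) (act2 (mp ψ κ) w) := by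
    rw [map_mul, map_mul, map_mul, map_mul, map_inv, map_inv]
    change act2 (mp ψ γ) (act2 (mp ψ κ) ((act2 (mp ψ γ))⁻¹ (act2 (mp ψ γ) w))) = _
    congr 2
    exact (act2 (mp ψ γ)).symm_apply_apply w
  rw [h1]
  exact ((act2 (mp ψ γ)).injective.eq_iff).symm

include hψ in
/-- the fixed vectors form a line -/
theorem Ln_line {κ : M2 A} (h : (κ.1 0 0 - 1) + (κ.1 1 1 - 1) = 0)
    (h2 : (κ.1 0 0 - 1) * (κ.1 1 1 - 1) - κ.1 0 1 * κ.1 1 0 = 0) (h1 : κ ≠ 1) :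
    (∃ w ∈ Ln ψ κ, w ≠ 0) ∧ ∀ w ∈ Ln ψ κ, ∀ w' ∈ Ln ψ κ, w 0 * w' 1 = w 1 * w' 0 := by
  have hne := ne_of_ne (ψ := ψ) hψ h h1
  have e1 := congrArg ψ h
  have e2 := congrArg ψ h2
  rw [map_add, map_zero] at e1
  rw [map_sub, map_mul, map_mul, map_zero] at e2
  generalize ha : ψ (κ.1 0 0 - 1) = a at *
  generalize hb : ψ (κ.1 0 1) = b at *
  generalize hc : ψ (κ.1 1 0) = c at *
  generalize hd : ψ (κ.1 1 1 - 1) = d at *
  constructor
  · by_cases h3 : a = 0 ∧ b = 0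
    · refine ⟨![d, -c], ?_, ?_⟩
      · rw [mem_Ln, ha, hb, hc, hd]
        obtain ⟨h4, h5⟩ := h3
        change a * d + b * -c = 0 ∧ c * d + d * -c = 0
        rw [h4, h5]
        exact ⟨by ring, by ring⟩
      · intro h4
        have h5 := congrFun h4 1
        change -c = 0 at h5
        rw [neg_eq_zero] at h5
        exact hne ⟨h3.1, h3.2, h5⟩
    · refine ⟨![-b, a], ?_, ?_⟩
      · rw [mem_Ln, ha, hb, hc, hd]
        change a * -b + b * a = 0 ∧ c * -b + d * a = 0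
        exact ⟨by ring, by linear_combination e2⟩
      · intro h4
        have h5 := congrFun h4 0
        have h6 := congrFun h4 1
        change -b = 0 at h5
        change a = 0 at h6
        rw [neg_eq_zero] at h5
        exact h3 ⟨h6, h5⟩
  · intro w hw w' hw'
    rw [mem_Ln, ha, hb, hc, hd] at hw hw'
    by_contra h3
    have h4 : w 0 * w' 1 - w 1 * w' 0 ≠ 0 := sub_ne_zero.2 h3
    apply hne
    refine ⟨?_, ?_, ?_⟩
    · have h5 : a * (w 0 * w' 1 - w 1 * w' 0) = 0 := by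
        linear_combination w' 1 * hw.1 - w 1 * hw'.1
      exact (mul_eq_zero.1 h5).resolve_right h4
    · have h5 : b * (w 0 * w' 1 - w 1 * w' 0) = 0 := by
        linear_combination w 0 * hw'.1 - w' 0 * hw.1
      exact (mul_eq_zero.1 h5).resolve_right h4
    · have h5 : c * (w 0 * w' 1 - w 1 * w' 0) = 0 := by
        linear_combination w' 1 * hw.2 - w 1 * hw'.2
      exact (mul_eq_zero.1 h5).resolve_right h4

section main

variable (Γ : Subgroup (M2 A))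

/-- the action of `Γ` on the tree -/
noncomputable def actG (ψ : A →+* F) (v : Valuation F Z0) (Γ : Subgroup (M2 A)) :
    MulAction Γ (VV v) :=
  MulAction.compHom (VV v) ((mp ψ).comp Γ.subtype)

/-- the edges fixed by nontrivial elements of the kernel -/
def SS (ψ : A →+* F) (v : Valuation F Z0) (m : Ideal A) (Γ : Subgroup (M2 A)) :
    SimpleGraph (VV v) where
  Adj x y := (TT v).Adj x y ∧ ∃ κ ∈ Γ, κ ≠ 1 ∧ Cg m κ ∧ mp ψ κ • x = x ∧ mp ψ κ • y = y
  symm := ⟨fun x y h => by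
    obtain ⟨h1, κ, h2, h3, h4, h5, h6⟩ := h
    exact ⟨h1.symm, κ, h2, h3, h4, h6, h5⟩⟩
  loopless := ⟨fun x h => h.1.ne rfl⟩

theorem SS_adj (γ : M2 A) (hγ : γ ∈ Γ) (x y : VV v) (h : (SS ψ v m Γ).Adj x y) :
    (SS ψ v m Γ).Adj (mp ψ γ • x) (mp ψ γ • y) := by
  obtain ⟨h1, κ, h2, h3, h4, h5, h6⟩ := h
  refine ⟨TT_adj _ _ _ h1, γ * κ * γ⁻¹, mul_mem (mul_mem hγ h2) (inv_mem hγ), ?_, cg_conj h4 γ,
    ?_, ?_⟩
  · intro h7
    apply h3
    have h8 : κ = γ⁻¹ * (γ * κ * γ⁻¹) * γ := by group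
    rw [h8, h7]
    group
  · rw [map_mul, map_mul, map_inv, mul_smul, mul_smul, inv_smul_smul, h5]
  · rw [map_mul, map_mul, map_inv, mul_smul, mul_smul, inv_smul_smul, h6]

include hψ hm in
/-- **Main theorem.** -/
theorem place_mem {C : ∀ (G : Type) [Group G], Prop} (hC : Closed C) (hE : ExtClosed C)
    (hS : ∀ (G : Type) [Group G], Group.IsSolvable G → C G)
    (hQ : C (Γ.map (mp (Ideal.Quotient.mk m)))) : C Γ := by
  letI : MulAction Γ (VV v) := actG ψ v Γ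
  have hsm : ∀ (γ : Γ) (x : VV v), γ • x = mp ψ γ.1 • x := fun _ _ => rfl
  have hadjS : ∀ (γ : Γ) (x y : VV v), (SS ψ v m Γ).Adj x y →
      (SS ψ v m Γ).Adj (γ • x) (γ • y) := fun γ x y h => SS_adj Γ γ.1 γ.2 x y h
  refine rel_mem (T := TT v) (S := SS ψ v m Γ) (fun γ x y h => TT_adj _ _ _ h) hadjS
    (TT_tree v) (fun x y h => h.1) hC hE hQ ((mp (Ideal.Quotient.mk m)).subgroupMap Γ)
    (fun x => ?_) (fun γ x y hxy hS' hx hy hf => ?_)
  · by_cases hex : ∃ κ ∈ Γ, κ ≠ 1 ∧ Cg m κ ∧ mp ψ κ • x = x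
    · obtain ⟨κ, h1, h2, h3, h4⟩ := hex
      -- the line is constant on the component
      have key : ∀ {y z : VV v} (_ : (SS ψ v m Γ).Walk y z),
          (∀ κ' ∈ Γ, κ' ≠ 1 → Cg m κ' → mp ψ κ' • y = y → Ln ψ κ' = Ln ψ κ) →
          (∀ κ' ∈ Γ, κ' ≠ 1 → Cg m κ' → mp ψ κ' • z = z → Ln ψ κ' = Ln ψ κ) := by
        intro y z p
        induction p with
        | nil => exact id
        | @cons y y' z h p ih =>
          intro hy
          apply ih
          obtain ⟨-, κ0, k1, k2, k3, k4, k5⟩ := h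
          intro κ' j1 j2 j3 j4
          rw [← hy κ0 k1 k2 k3 k4]
          exact Ln_eq hψ hm j3 k3 j4 k5 j2 k2
      have hx : ∀ κ' ∈ Γ, κ' ≠ 1 → Cg m κ' → mp ψ κ' • x = x → Ln ψ κ' = Ln ψ κ :=
        fun κ' j1 j2 j3 j4 => Ln_eq hψ hm j3 h3 j4 h4 j2 h2
      obtain ⟨a1, a2⟩ := nil_of hm h3 (cg_inv h3) h4
      obtain ⟨⟨w, hw, hw0⟩, hline⟩ := Ln_line hψ a1 a2 h2
      refine hS _ (line_sol ((mp ψ).comp (Γ.subtype.comp (cs hadjS x).subtype)) ?_ w hw0
        (fun γ => ?_))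
      · intro a b hab
        exact Subtype.ext (Subtype.ext (mp_inj hψ hab))
      · have hγ : (SS ψ v m Γ).Reachable x (γ.1 • x) := γ.2
        obtain ⟨p⟩ := hγ
        have h5 := key p hx (γ.1.1 * κ * γ.1.1⁻¹) (mul_mem (mul_mem γ.1.2 h1) (inv_mem γ.1.2))
          (by
            intro h7
            apply h2
            have h8 : κ = γ.1.1⁻¹ * (γ.1.1 * κ * γ.1.1⁻¹) * γ.1.1 := by group
            rw [h8, h7]
            group) (cg_conj h3 _)
          (by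
            rw [hsm, map_mul, map_mul, map_inv, mul_smul, mul_smul, inv_smul_smul, h4])
        have h6 := (Ln_conj κ γ.1.1 w).1 hw
        rw [h5] at h6
        exact hline w hw _ h6
    · -- the component is a single vertex, and the kernel acts freely on it
      have h1 : ∀ γ ∈ cs hadjS x, γ • x = x := by
        intro γ hγ
        obtain ⟨p⟩ : (SS ψ v m Γ).Reachable x (γ • x) := hγ
        generalize hz : γ • x = z at p
        cases p with
        | nil => rfl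
        | cons h p =>
          exfalso
          obtain ⟨-, κ0, k1, k2, k3, k4, k5⟩ := h
          exact hex ⟨κ0, k1, k2, k3, k4⟩
      refine hC.of_injective _ _ (((mp (Ideal.Quotient.mk m)).subgroupMap Γ).comp
        (cs hadjS x).subtype) ?_ hQ
      refine (injective_iff_map_eq_one _).2 (fun γ hγ => ?_)
      by_contra hne
      have h2 : mp (Ideal.Quotient.mk m) γ.1.1 = 1 := congrArg Subtype.val hγ
      exact hex ⟨γ.1.1, γ.1.2, fun h3 => hne (Subtype.ext (Subtype.ext h3)), (cg_iff _).1 h2,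
        h1 γ.1 γ.2⟩
  · by_contra hne
    have h2 : mp (Ideal.Quotient.mk m) γ.1 = 1 := congrArg Subtype.val hf
    exact hS' ⟨hxy, γ.1, γ.2, fun h3 => hne (Subtype.ext h3), (cg_iff _).1 h2, hx, hy⟩

end main

end Pool.Agent.Q143.BT
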