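import Pool.Agent.Q143.BT.Par
import Pool.Agent.Q143.JN.GE

/-!
# The tree of a field with a discrete valuation

The vertices are the norms `max (v (x 0 - a * x 1)) (r * v (x 1))` on `F ^ 2`, one in each
homothety class.
-/

set_option autoImplicit false
set_option linter.unusedSectionVars false
set_option linter.style.haveILetI false

namespace Pool.Agent.Q143.BT

open Pool.Agent.Q143.JN WithZero

/-- the values -/
abbrev Z0 : Type := WithZero (Multiplicative ℤ)

/-- the generator of the group of values -/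
def q0 : Z0 := exp (1 : ℤ)

theorem q0_ne : q0 ≠ 0 := exp_ne_zero

theorem exp_le {a b : ℤ} : (exp a : Z0) ≤ exp b ↔ a ≤ b := by
  simp [exp]

theorem exp_lt {a b : ℤ} : (exp a : Z0) < exp b ↔ a < b := by
  simp [exp]

theorem ex_exp {r : Z0} (hr : r ≠ 0) : ∃ n : ℤ, r = exp n := ⟨log r, (exp_log hr).symm⟩

theorem q0_exp (n : ℤ) : q0 * exp n = exp (1 + n) := (exp_add _ _).symm

theorem lt_q0 {r : Z0} (hr : r ≠ 0) : r < q0 * r := by
  obtain ⟨n, rfl⟩ := ex_exp hr
  rw [q0_exp, exp_lt]
  omega

theorem q0_pos : 1 ≤ q0 := by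
  have h := (lt_q0 (one_ne_zero)).le
  rwa [mul_one] at h

theorem disc {r s : Z0} (hr : r ≠ 0) (h1 : r ≤ s) (h2 : s ≤ q0 * r) : s = r ∨ s = q0 * r := by
  have hs : s ≠ 0 := by
    rintro rfl
    exact hr (le_antisymm h1 zero_le)
  obtain ⟨n, rfl⟩ := ex_exp hr
  obtain ⟨m, rfl⟩ := ex_exp hs
  rw [q0_exp] at h2 ⊢
  rw [exp_le] at h1 h2
  rw [exp_inj, exp_inj]
  omega

theorem common {r s : Z0} (t : Z0) (hr : r ≠ 0) (hs : s ≠ 0) :
    ∃ m n : ℕ, q0 ^ m * r = q0 ^ n * s ∧ t ≤ q0 ^ m * r := by
  obtain ⟨k, rfl⟩ := ex_exp hr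
  obtain ⟨l, rfl⟩ := ex_exp hs
  have hq : ∀ (n : ℕ) (a : ℤ), q0 ^ n * exp a = exp (n + a) := by
    intro n a
    induction n with
    | zero => simp
    | succ n ih =>
      rw [pow_succ', mul_assoc, ih, q0_exp]
      congr 1
      push_cast
      ring
  rcases eq_or_ne t 0 with rfl | ht
  · refine ⟨(max k l - k).toNat, (max k l - l).toNat, ?_, zero_le⟩
    rw [hq, hq, exp_inj]
    omega
  · obtain ⟨j, rfl⟩ := ex_exp ht
    refine ⟨(max (max k l) j - k).toNat, (max (max k l) j - l).toNat, ?_, ?_⟩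
    · rw [hq, hq, exp_inj]
      omega
    · rw [hq, exp_le]
      omega

variable {F : Type} [Field F] (v : Valuation F Z0)

/-- the norm -/
def nm (a : F) (r : Z0) (x : Fin 2 → F) : Z0 := max (v (x 0 - a * x 1)) (r * v (x 1))

theorem nm_e0 (a : F) (r : Z0) : nm v a r ![1, 0] = 1 := by
  change max (v (1 - a * 0)) (r * v 0) = 1
  rw [mul_zero, sub_zero, map_one, map_zero, mul_zero]
  exact max_eq_left zero_le_one

theorem nm_b (a b : F) (r : Z0) : nm v a r ![b, 1] = max (v (b - a)) r := by
  change max (v (b - a * 1)) (r * v 1) = _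
  rw [mul_one, map_one, mul_one]

theorem nm_a (a : F) (r : Z0) : nm v a r ![a, 1] = r := by
  rw [nm_b, sub_self, map_zero]
  exact max_eq_right zero_le

theorem nm_smul (a : F) (r : Z0) (c : F) (x : Fin 2 → F) :
    nm v a r (c • x) = v c * nm v a r x := by
  change max (v (c * x 0 - a * (c * x 1))) (r * v (c * x 1)) = _
  rw [nm, mul_max, ← map_mul]
  congr 1
  · congr 1
    ring
  · rw [map_mul]
    exact mul_left_comm _ _ _

theorem nm_add (a : F) (r : Z0) (x y : Fin 2 → F) :
    nm v a r (x + y) ≤ max (nm v a r x) (nm v a r y) := by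
  refine max_le ?_ ?_
  · have h1 : (x + y) 0 - a * (x + y) 1 = (x 0 - a * x 1) + (y 0 - a * y 1) := by
      change x 0 + y 0 - a * (x 1 + y 1) = _
      ring
    rw [h1]
    exact (v.map_add _ _).trans (max_le_max (le_max_left _ _) (le_max_left _ _))
  · have h1 : v ((x + y) 1) ≤ max (v (x 1)) (v (y 1)) := v.map_add _ _
    refine (mul_le_mul_right h1 r).trans ?_
    rw [mul_max]
    exact max_le_max (le_max_right _ _) (le_max_right _ _)

theorem nm_ne (a : F) {r : Z0} (hr : r ≠ 0) {x : Fin 2 → F} (hx : x ≠ 0) : nm v a r x ≠ 0 := by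
  intro h
  have h1 : v (x 0 - a * x 1) = 0 := le_antisymm ((le_max_left _ _).trans h.le) zero_le
  have h2 : r * v (x 1) = 0 := le_antisymm ((le_max_right _ _).trans h.le) zero_le
  rcases mul_eq_zero.1 h2 with h3 | h3
  · exact hr h3
  · rw [map_eq_zero] at h1 h3
    apply hx
    rw [h3, mul_zero, sub_zero] at h1
    funext i
    fin_cases i
    · exact h1
    · exact h3

theorem nm_det (a : F) (r : Z0) (x y : Fin 2 → F) :
    r * v (x 0 * y 1 - x 1 * y 0) ≤ nm v a r x * nm v a r y := by
  have h1 : x 0 * y 1 - x 1 * y 0 = (x 0 - a * x 1) * y 1 - (y 0 - a * y 1) * x 1 := by ring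
  rw [h1]
  refine (mul_le_mul_right (v.map_sub _ _) r).trans ?_
  rw [mul_max]
  refine max_le ?_ ?_
  · rw [map_mul]
    calc r * (v (x 0 - a * x 1) * v (y 1)) = v (x 0 - a * x 1) * (r * v (y 1)) :=
          mul_left_comm _ _ _
      _ ≤ nm v a r x * nm v a r y := mul_le_mul' (le_max_left _ _) (le_max_right _ _)
  · rw [map_mul]
    calc r * (v (y 0 - a * y 1) * v (x 1)) = (r * v (x 1)) * v (y 0 - a * y 1) := by
          rw [mul_comm (v _) (v _), mul_assoc]
      _ ≤ nm v a r x * nm v a r y := mul_le_mul' (le_max_right _ _) (le_max_left _ _)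

theorem nm_eq {a b : F} {r : Z0} (h : v (a - b) ≤ r) : nm v a r = nm v b r := by
  have key : ∀ a b : F, v (a - b) ≤ r → ∀ x, nm v b r x ≤ nm v a r x := by
    intro a b h x
    refine max_le ?_ (le_max_right _ _)
    have h1 : x 0 - b * x 1 = (x 0 - a * x 1) + (a - b) * x 1 := by ring
    rw [h1]
    refine (v.map_add _ _).trans (max_le_max le_rfl ?_)
    rw [map_mul]
    exact mul_le_mul_left h _
  funext x
  exact le_antisymm (key b a (by rwa [Valuation.map_sub_swap]) x) (key a b h x)

theorem nm_uniq {a b : F} {r s : Z0} (h : nm v a r = nm v b s) : r = s ∧ v (a - b) ≤ r := by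
  have h1 := congrFun h ![a, 1]
  have h2 := congrFun h ![b, 1]
  rw [nm_a, nm_b] at h1
  rw [nm_a, nm_b] at h2
  have h3 : s ≤ r := by rw [h1]; exact le_max_right _ _
  have h4 : r ≤ s := by rw [← h2]; exact le_max_right _ _
  exact ⟨le_antisymm h4 h3, by rw [h1]; exact le_max_left _ _⟩

/-- reduction to the normal form -/
theorem gform {α β γ δ : F} (hd : α * δ - β * γ ≠ 0) {r : Z0} (hr : r ≠ 0) :
    ∃ (b : F) (s c : Z0), s ≠ 0 ∧ c ≠ 0 ∧ ∀ x : Fin 2 → F,
      max (v (α * x 0 + β * x 1)) (r * v (γ * x 0 + δ * x 1)) = c * nm v b s x := by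
  by_cases h : r * v γ ≤ v α
  · have hα : α ≠ 0 := by
      rintro rfl
      rw [map_zero] at h
      have h1 := le_antisymm h zero_le
      rcases mul_eq_zero.1 h1 with h2 | h2
      · exact hr h2
      · rw [map_eq_zero] at h2
        apply hd
        rw [h2]
        ring
    have hvα : v α ≠ 0 := (Valuation.ne_zero_iff v).2 hα
    have hδ : δ - β * γ / α ≠ 0 := by
      intro h1
      apply hd
      field_simp at h1
      linear_combination h1
    have hvδ : v (δ - β * γ / α) ≠ 0 := (Valuation.ne_zero_iff v).2 hδ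
    refine ⟨-(β / α), r * v (δ - β * γ / α) / v α, v α, ?_, hvα, fun x => ?_⟩
    · exact div_ne_zero (mul_ne_zero hr hvδ) hvα
    · have e0 : v α * nm v (-(β / α)) (r * v (δ - β * γ / α) / v α) x =
          max (v (α * x 0 + β * x 1)) (r * v ((δ - β * γ / α) * x 1)) := by
        rw [nm, mul_max, ← map_mul, map_mul v (δ - β * γ / α)]
        congr 1
        · congr 1
          field_simp
          ring
        · rw [div_mul_eq_mul_div, mul_div_cancel₀ _ hvα, mul_assoc]
      rw [e0]
      have e1 : γ * x 0 + δ * x 1 = γ / α * (α * x 0 + β * x 1) + (δ - β * γ / α) * x 1 := by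
        field_simp
        ring
      have e2 : (δ - β * γ / α) * x 1 = (γ * x 0 + δ * x 1) - γ / α * (α * x 0 + β * x 1) := by
        rw [e1]
        ring
      have e3 : r * v (γ / α * (α * x 0 + β * x 1)) ≤ v (α * x 0 + β * x 1) := by
        rw [map_mul, ← mul_assoc]
        have h5 : r * v (γ / α) ≤ 1 := by
          rw [map_div₀, ← mul_div_assoc]
          exact div_le_one_of_le₀ h zero_le
        exact (mul_le_mul_left h5 _).trans (one_mul _).le
      apply le_antisymm
      · refine max_le (le_max_left _ _) ?_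
        conv_lhs => rw [e1]
        refine (mul_le_mul_right (v.map_add _ _) r).trans ?_
        rw [mul_max]
        exact max_le_max e3 le_rfl
      · refine max_le (le_max_left _ _) ?_
        conv_lhs => rw [e2]
        refine (mul_le_mul_right (v.map_sub _ _) r).trans ?_
        rw [mul_max, max_comm]
        exact max_le_max e3 le_rfl
  · have h' : v α ≤ r * v γ := (not_le.1 h).le
    have hγ : γ ≠ 0 := by
      rintro rfl
      apply h
      rw [map_zero, mul_zero]
      exact zero_le
    have hvγ : v γ ≠ 0 := (Valuation.ne_zero_iff v).2 hγ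
    have hβ : β - α * δ / γ ≠ 0 := by
      intro h1
      apply hd
      field_simp at h1
      linear_combination -h1
    have hvβ : v (β - α * δ / γ) ≠ 0 := (Valuation.ne_zero_iff v).2 hβ
    have hrγ : r * v γ ≠ 0 := mul_ne_zero hr hvγ
    refine ⟨-(δ / γ), v (β - α * δ / γ) / (r * v γ), r * v γ, div_ne_zero hvβ hrγ, hrγ,
      fun x => ?_⟩
    have e0 : r * v γ * nm v (-(δ / γ)) (v (β - α * δ / γ) / (r * v γ)) x =
        max (r * v (γ * x 0 + δ * x 1)) (v ((β - α * δ / γ) * x 1)) := by
      rw [nm, mul_max, mul_assoc, ← map_mul, map_mul v (β - α * δ / γ)]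
      congr 1
      · congr 2
        field_simp
        ring
      · rw [div_mul_eq_mul_div, ← mul_div_assoc, mul_div_assoc, mul_div_assoc]
        rw [← mul_div_assoc, ← mul_div_assoc, mul_div_cancel_left₀ _ hrγ]
    rw [e0]
    have e1 : α * x 0 + β * x 1 = α / γ * (γ * x 0 + δ * x 1) + (β - α * δ / γ) * x 1 := by
      field_simp
      ring
    have e2 : (β - α * δ / γ) * x 1 = (α * x 0 + β * x 1) - α / γ * (γ * x 0 + δ * x 1) := by
      rw [e1]
      ring
    have e3 : v (α / γ * (γ * x 0 + δ * x 1)) ≤ r * v (γ * x 0 + δ * x 1) := by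
      rw [map_mul]
      refine mul_le_mul_left ?_ _
      rw [map_div₀]
      exact (div_le_iff₀ (zero_lt_iff.2 hvγ)).2 h'
    apply le_antisymm
    · refine max_le ?_ (le_max_left _ _)
      conv_lhs => rw [e1]
      refine (v.map_add _ _).trans ?_
      exact max_le_max e3 le_rfl
    · refine max_le (le_max_right _ _) ?_
      conv_lhs => rw [e2]
      refine (v.map_sub _ _).trans ?_
      exact max_le_max le_rfl e3

end Pool.Agent.Q143.BT
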