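import Mathlib

/-!
# Trees given by a parent function
-/

set_option autoImplicit false
set_option linter.unusedSectionVars false

namespace Pool.Agent.Q143.BT

variable {V L : Type} [Preorder L] (par : V → V) (lev : V → L)

/-- the graph of a parent function -/
def pgr (hlev : ∀ x, lev x < lev (par x)) : SimpleGraph V where
  Adj x y := par x = y ∨ par y = x
  symm := ⟨fun _ _ h => h.symm⟩
  loopless := ⟨fun x h => by
    rcases h with h | h
    · have h1 := hlev x
      rw [h] at h1
      exact lt_irrefl _ h1
    · have h1 := hlev x
      rw [h] at h1
      exact lt_irrefl _ h1⟩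

variable {par lev}

theorem pgr_iter (hlev : ∀ x, lev x < lev (par x)) (n : ℕ) (x : V) :
    (pgr par lev hlev).Reachable x (par^[n] x) := by
  induction n with
  | zero => exact SimpleGraph.Reachable.refl _
  | succ n ih =>
    refine ih.trans (SimpleGraph.Adj.reachable (Or.inl ?_))
    rw [Function.iterate_succ_apply']

theorem lev_iter (hlev : ∀ x, lev x < lev (par x)) (n : ℕ) (x : V) : lev x ≤ lev (par^[n] x) := by
  induction n with
  | zero => exact le_rfl
  | succ n ih =>
    rw [Function.iterate_succ_apply']
    exact ih.trans (hlev _).le

theorem pgr_tree [Nonempty V] (hlev : ∀ x, lev x < lev (par x))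
    (hc : ∀ x y, ∃ m n, par^[m] x = par^[n] y) : (pgr par lev hlev).IsTree := by
  refine ⟨⟨fun x y => ?_⟩, SimpleGraph.isAcyclic_iff_forall_adj_isBridge.2 ?_⟩
  · obtain ⟨m, n, h⟩ := hc x y
    refine (pgr_iter hlev m x).trans ?_
    rw [h]
    exact (pgr_iter hlev n y).symm
  · have key : ∀ x, ¬ ((pgr par lev hlev).deleteEdges {s(x, par x)}).Reachable x (par x) := by
      rintro x ⟨p⟩
      have h1 : ∀ {u w : V} (_ : ((pgr par lev hlev).deleteEdges {s(x, par x)}).Walk u w),
          (∃ k, par^[k] u = x) → ∃ k, par^[k] w = x := by
        intro u w q
        induction q with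
        | nil => exact id
        | @cons u v w h q ih =>
          intro ⟨k, hk⟩
          apply ih
          rw [SimpleGraph.deleteEdges_adj] at h
          obtain ⟨h | h, h2⟩ := h
          · cases k with
            | zero =>
              exfalso
              apply h2
              have h3 : u = x := hk
              subst h3
              rw [h]
              rfl
            | succ k =>
              rw [Function.iterate_succ_apply, h] at hk
              exact ⟨k, hk⟩
          · exact ⟨k + 1, by rw [Function.iterate_succ_apply, h, hk]⟩
      obtain ⟨k, hk⟩ := h1 p ⟨0, rfl⟩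
      have h2 := lev_iter hlev k (par x)
      rw [hk] at h2
      exact absurd (hlev x) (not_lt_of_ge h2)
    rintro x y (h | h)
    · rw [SimpleGraph.isBridge_iff, ← h]
      exact key x
    · rw [SimpleGraph.isBridge_iff, ← h]
      intro h3
      refine key y (SimpleGraph.Reachable.symm ?_)
      rwa [Sym2.eq_swap] at h3

end Pool.Agent.Q143.BT
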