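import Pool.Agent.Q143.BT.Norm

/-!
# The tree of a field with a discrete valuation: the action
-/

set_option autoImplicit false
set_option linter.unusedSectionVars false
set_option linter.style.haveILetI false

namespace Pool.Agent.Q143.BT

open Pool.Agent.Q143.JN WithZero

variable {F : Type} [Field F] (v : Valuation F Z0)

/-- the vertices -/
def VV : Type := {N : (Fin 2 → F) → Z0 // ∃ a r, r ≠ 0 ∧ N = nm v a r}

variable {v}

theorem det_ne (g : M2 F) : g.1 0 0 * g.1 1 1 - g.1 0 1 * g.1 1 0 ≠ 0 := by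
  intro h
  have h1 := g.isUnit.map (Matrix.detMonoidHom)
  change IsUnit (Matrix.det g.1) at h1
  rw [Matrix.det_fin_two, h] at h1
  exact not_isUnit_zero h1

theorem act_form (g : M2 F) (a : F) {r : Z0} (hr : r ≠ 0) :
    ∃ (b : F) (s c : Z0), s ≠ 0 ∧ c ≠ 0 ∧ ∀ x : Fin 2 → F,
      nm v a r (act2 g x) = c * nm v b s x := by
  have hd := det_ne g
  obtain ⟨b, s, c, hs, hc, h⟩ := gform v (α := g.1 0 0 - a * g.1 1 0) (β := g.1 0 1 - a * g.1 1 1)
    (γ := g.1 1 0) (δ := g.1 1 1) (by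
      intro h0
      apply hd
      linear_combination h0) hr
  refine ⟨b, s, c, hs, hc, fun x => ?_⟩
  rw [← h, nm, act2_apply, act2_apply]
  congr 2
  ring

/-- the value at the first basis vector -/
theorem act_c {g : M2 F} {N : VV v} {b : F} {s c : Z0}
    (h : ∀ x : Fin 2 → F, N.1 (act2 g x) = c * nm v b s x) : N.1 (act2 g ![1, 0]) = c := by
  rw [h, nm_e0, mul_one]

theorem act_ne (g : M2 F) (N : VV v) : N.1 (act2 g ![1, 0]) ≠ 0 := by
  obtain ⟨a, r, hr, hN⟩ := N.2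
  rw [hN]
  refine nm_ne v a hr (fun h => ?_)
  have h1 : act2 g ![1, 0] = act2 g 0 := by
    rw [h]
    funext i
    rw [act2_apply]
    simp
  have h2 := congrFun ((act2 g).injective h1) 0
  exact one_ne_zero (α := F) h2

noncomputable instance : MulAction (M2 F) (VV v) where
  smul g N := ⟨fun x => N.1 (act2 g⁻¹ x) / N.1 (act2 g⁻¹ ![1, 0]), by
    obtain ⟨a, r, hr, hN⟩ := N.2
    obtain ⟨b, s, c, hs, hc, h⟩ := act_form (v := v) g⁻¹ a hr
    rw [← hN] at h
    refine ⟨b, s, hs, ?_⟩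
    funext x
    rw [act_c h, h, mul_div_cancel_left₀ _ hc]⟩
  one_smul N := Subtype.ext (by
    funext x
    change N.1 (act2 (1 : M2 F)⁻¹ x) / N.1 (act2 (1 : M2 F)⁻¹ ![1, 0]) = N.1 x
    rw [inv_one, map_one]
    change N.1 x / N.1 ![1, 0] = N.1 x
    obtain ⟨a, r, hr, hN⟩ := N.2
    have h1 : N.1 ![1, 0] = 1 := by rw [hN, nm_e0]
    rw [h1, div_one])
  mul_smul g h N := Subtype.ext (by
    funext x
    change N.1 (act2 (g * h)⁻¹ x) / N.1 (act2 (g * h)⁻¹ ![1, 0]) =
      (N.1 (act2 h⁻¹ (act2 g⁻¹ x)) / N.1 (act2 h⁻¹ ![1, 0])) /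
        (N.1 (act2 h⁻¹ (act2 g⁻¹ ![1, 0])) / N.1 (act2 h⁻¹ ![1, 0]))
    rw [div_div_div_cancel_right₀ (act_ne h⁻¹ N), mul_inv_rev, map_mul]
    rfl)

theorem smul_apply (g : M2 F) (N : VV v) (x : Fin 2 → F) :
    (g • N).1 x = N.1 (act2 g⁻¹ x) / N.1 (act2 g⁻¹ ![1, 0]) := rfl

/-! ## the parent -/

/-- the centre -/
noncomputable def ctr (N : VV v) : F := N.2.choose

/-- the radius -/
noncomputable def rad (N : VV v) : Z0 := N.2.choose_spec.choose

theorem rad_ne (N : VV v) : rad N ≠ 0 := N.2.choose_spec.choose_spec.1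

theorem N_eq (N : VV v) : N.1 = nm v (ctr N) (rad N) := N.2.choose_spec.choose_spec.2

/-- the vertex with centre `a` and radius `r` -/
def mkV (v : Valuation F Z0) (a : F) (r : Z0) (hr : r ≠ 0) : VV v := ⟨nm v a r, a, r, hr, rfl⟩

theorem mkV_eq {a b : F} {r s : Z0} {hr : r ≠ 0} {hs : s ≠ 0} (h : r = s) (h2 : v (a - b) ≤ r) :
    mkV v a r hr = mkV v b s hs := by
  subst h
  exact Subtype.ext (nm_eq v h2)

theorem mkV_self (N : VV v) : mkV v (ctr N) (rad N) (rad_ne N) = N := Subtype.ext (N_eq N).symm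

theorem rad_mk (a : F) (r : Z0) (hr : r ≠ 0) : rad (mkV v a r hr) = r ∧
    v (ctr (mkV v a r hr) - a) ≤ r := by
  have h1 := N_eq (mkV v a r hr)
  obtain ⟨h2, h3⟩ := nm_uniq v (a := a) (b := ctr (mkV v a r hr)) (r := r)
    (s := rad (mkV v a r hr)) h1
  rw [Valuation.map_sub_swap] at h3
  exact ⟨h2.symm, h3⟩

theorem q0r_ne {r : Z0} (hr : r ≠ 0) : q0 * r ≠ 0 := mul_ne_zero q0_ne hr

/-- the parent -/
noncomputable def par (N : VV v) : VV v := mkV v (ctr N) (q0 * rad N) (q0r_ne (rad_ne N))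

theorem par_mk (a : F) (r : Z0) (hr : r ≠ 0) :
    par (mkV v a r hr) = mkV v a (q0 * r) (q0r_ne hr) := by
  obtain ⟨h1, h2⟩ := rad_mk (v := v) a r hr
  refine mkV_eq (by rw [h1]) ?_
  rw [h1]
  exact h2.trans (lt_q0 hr).le

theorem lev_par (N : VV v) : rad N < rad (par N) := by
  rw [par, (rad_mk _ _ _).1]
  exact lt_q0 (rad_ne N)

theorem par_iter (a : F) (r : Z0) (hr : r ≠ 0) (n : ℕ) :
    ∃ h, par^[n] (mkV v a r hr) = mkV v a (q0 ^ n * r) h := by
  induction n with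
  | zero => exact ⟨by rwa [pow_zero, one_mul], mkV_eq (by rw [pow_zero, one_mul]) (by simp)⟩
  | succ n ih =>
    obtain ⟨h, h1⟩ := ih
    rw [Function.iterate_succ_apply', h1, par_mk]
    refine ⟨mul_ne_zero (pow_ne_zero _ q0_ne) hr, mkV_eq ?_ (by simp)⟩
    rw [pow_succ', mul_assoc]

variable (v) in
/-- the tree -/
noncomputable def TT : SimpleGraph (VV v) := pgr par rad lev_par

instance : Nonempty (VV v) := ⟨mkV v 0 1 one_ne_zero⟩

variable (v) in
theorem TT_tree : (TT v).IsTree := by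
  refine pgr_tree lev_par (fun M N => ?_)
  rw [← mkV_self M, ← mkV_self N]
  obtain ⟨m, n, h1, h2⟩ := common (v (ctr M - ctr N)) (rad_ne M) (rad_ne N)
  obtain ⟨h3, h4⟩ := par_iter (v := v) (ctr M) (rad M) (rad_ne M) m
  obtain ⟨h5, h6⟩ := par_iter (v := v) (ctr N) (rad N) (rad_ne N) n
  exact ⟨m, n, by rw [h4, h6]; exact mkV_eq h1 h2⟩

/-- characterisation of the parent -/
theorem par_of {M M' : VV v} (h1 : ∀ x, M.1 x ≤ M'.1 x) (h2 : ∀ x, M'.1 x ≤ q0 * M.1 x)
    (hne : M ≠ M') : par M = M' := by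
  rw [← mkV_self M'] at h1 h2 hne ⊢
  rw [← mkV_self M] at h1 h2 hne ⊢
  have hr0 := rad_ne M
  have h3 := h1 ![ctr M', 1]
  change nm v (ctr M) (rad M) _ ≤ nm v (ctr M') (rad M') _ at h3
  rw [nm_b, nm_a] at h3
  have h4 : v (ctr M' - ctr M) ≤ rad M' := (le_max_left _ _).trans h3
  have h5 : rad M ≤ rad M' := (le_max_right _ _).trans h3
  have h6 := h2 ![ctr M, 1]
  change nm v (ctr M') (rad M') _ ≤ q0 * nm v (ctr M) (rad M) _ at h6
  rw [nm_b, nm_a] at h6
  have h7 : rad M' ≤ q0 * rad M := (le_max_right _ _).trans h6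
  rw [par_mk]
  rcases disc hr0 h5 h7 with h8 | h8
  · exfalso
    apply hne
    refine mkV_eq h8.symm ?_
    rw [Valuation.map_sub_swap, ← h8]
    exact h4
  · refine mkV_eq h8.symm ?_
    rw [Valuation.map_sub_swap, ← h8]
    exact h4

theorem par_le (N : VV v) (x : Fin 2 → F) : N.1 x ≤ (par N).1 x := by
  rw [N_eq N]
  change nm v _ _ x ≤ nm v (ctr N) (q0 * rad N) x
  exact max_le_max le_rfl (mul_le_mul_left (lt_q0 (rad_ne N)).le _)

theorem par_le' (N : VV v) (x : Fin 2 → F) : (par N).1 x ≤ q0 * N.1 x := by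
  rw [N_eq N]
  change nm v (ctr N) (q0 * rad N) x ≤ _
  rw [nm, nm, mul_max, mul_assoc]
  refine max_le_max ?_ le_rfl
  have h1 := mul_le_mul_left q0_pos (v (x 0 - ctr N * x 1))
  rwa [one_mul] at h1

theorem adj_par (g : M2 F) (N : VV v) : (TT v).Adj (g • N) (g • par N) := by
  have hne : g • N ≠ g • par N := by
    intro h
    have h1 := MulAction.injective g h
    have h2 := lev_par N
    rw [← h1] at h2
    exact lt_irrefl _ h2
  have hα := act_ne g⁻¹ N
  have hα' := act_ne g⁻¹ (par N)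
  rcases disc hα (par_le N (act2 g⁻¹ ![1, 0])) (par_le' N (act2 g⁻¹ ![1, 0])) with h | h
  · left
    refine par_of (fun x => ?_) (fun x => ?_) hne
    · rw [smul_apply, smul_apply, h]
      exact div_le_div_of_nonneg_right (par_le N _) zero_le
    · rw [smul_apply, smul_apply, h, ← mul_div_assoc]
      exact div_le_div_of_nonneg_right (par_le' N _) zero_le
  · right
    refine par_of (fun x => ?_) (fun x => ?_) hne.symm
    · rw [smul_apply, smul_apply, h]
      calc _ ≤ q0 * N.1 (act2 g⁻¹ x) / (q0 * N.1 (act2 g⁻¹ ![1, 0])) :=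
            div_le_div_of_nonneg_right (par_le' N _) zero_le
        _ = _ := mul_div_mul_left _ _ q0_ne
    · rw [smul_apply, smul_apply, h, ← mul_div_assoc, mul_div_mul_left _ _ q0_ne]
      exact div_le_div_of_nonneg_right (par_le N _) zero_le

theorem TT_adj (g : M2 F) (M N : VV v) (h : (TT v).Adj M N) : (TT v).Adj (g • M) (g • N) := by
  rcases h with h | h
  · rw [← h]
    exact adj_par g M
  · rw [← h]
    exact (adj_par g N).symm

end Pool.Agent.Q143.BT
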